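import Mathlib
import Pool.Agent.H737R3.Cont.Main

set_option autoImplicit false

namespace Pool.Agent.Results.MP_6e067e_ag.PlaneCharZero

open MvPolynomial

/-- the homogeneous ideal of the point of the projective plane with homogeneous coordinates `q` -/
noncomputable def pointIdeal {K : Type*} [Field K] (q : Fin 3 → K) :
    Ideal (MvPolynomial (Fin 3) K) :=
  Ideal.span (Set.range (fun jl : Fin 3 × Fin 3 =>
    (X jl.1 * C (q jl.2) - X jl.2 * C (q jl.1) : MvPolynomial (Fin 3) K)))

/-- the `m`-th symbolic power of the radical ideal of the points with coordinates `p i` -/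
noncomputable def symPow {K : Type*} [Field K] {s : ℕ} (p : Fin s → Fin 3 → K)
    (m : ℕ) : Ideal (MvPolynomial (Fin 3) K) :=
  ⨅ i : Fin s, pointIdeal (p i) ^ m

/-- **The containment `I^(t(m+N-1)) ⊆ M^(t(N-1)) (I^(m))^t` in the plane (`N = 2`), characteristic
zero**, for every nonempty finite set of points and all `m, t ≥ 1`. -/
theorem result (K : Type*) [Field K] [CharZero K] (s : ℕ) (hs : 0 < s) (p : Fin s → Fin 3 → K)
    (hp : ∀ i, p i ≠ 0) (m t : ℕ) (_hm : 0 < m) (ht : 0 < t) :
    symPow p (t * (m + 2 - 1)) ≤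
      (Ideal.span (Set.range (fun j : Fin 3 => (X j : MvPolynomial (Fin 3) K)))) ^ (t * (2 - 1)) *
        (symPow p m) ^ t := by
  have h1 : ∀ i, pointIdeal (p i) = Pool.Agent.H737R3.linI (p i) :=
    fun i => Pool.Agent.H737R3.span_eq_linI (hp i)
  unfold symPow
  simp only [h1]
  rw [show t * (2 - 1) = t by omega]
  exact Pool.Agent.H737R3.Cont.cont (n := 2) le_rfl hs ht p hp (fun _ => m)

end Pool.Agent.Results.MP_6e067e_ag.PlaneCharZero
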